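import Pool.Agent.H43.G.R_seed8.W66.ZB

set_option autoImplicit false

/-!
# The classical zero free region of the zeta function
-/

open Complex Filter Topology Set MeasureTheory Metric

namespace Pool.Agent.W66

open H370 H370.Loc

/-- the logarithmic derivative of `(s-1) ζ(s)` -/
noncomputable def DD (s : ℂ) : ℂ := deriv Z1 s / Z1 s

lemma DD_eq {s : ℂ} (hs : s ≠ 1) (hz : riemannZeta s ≠ 0) :
    DD s = 1 / (s - 1) + deriv riemannZeta s / riemannZeta s := by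
  have h1 : Z1 =ᶠ[𝓝 s] fun z => (z - 1) * riemannZeta z := by
    filter_upwards [isOpen_ne.mem_nhds hs] with w hw
    exact Z1_eq hw
  have h2 : HasDerivAt (fun z => (z - 1) * riemannZeta z)
      (1 * riemannZeta s + (s - 1) * deriv riemannZeta s) s :=
    ((hasDerivAt_id s).sub_const 1).mul (differentiableAt_riemannZeta hs).hasDerivAt
  unfold DD
  rw [h1.deriv_eq, h2.deriv, Z1_eq hs]
  have h3 : s - 1 ≠ 0 := sub_ne_zero.2 hs
  field_simp

lemma LSeries_eq_DD {s : ℂ} (hs : 1 < s.re) :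
    LSeries (fun n => (ArithmeticFunction.vonMangoldt n : ℂ)) s = 1 / (s - 1) - DD s := by
  have hne : s ≠ 1 := by
    intro h
    rw [h] at hs
    simp at hs
  rw [DD_eq hne (riemannZeta_ne_zero_of_one_lt_re hs),
    ArithmeticFunction.LSeries_vonMangoldt_eq_deriv_riemannZeta_div hs]
  ring

lemma zf_high : ∃ c : ℝ, 0 < c ∧ c ≤ 1 / 2 ∧ ∀ ρ : ℂ, Z1 ρ = 0 → 1 ≤ |ρ.im| →
    ρ.re ≤ 1 - c / ell ρ.im := by
  obtain ⟨K, hK, hD⟩ := D_re
  set K' : ℝ := 9 * K + 5 with hK'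
  set κ : ℝ := 1 / (2 * K') with hκ
  have hK'0 : 0 < K' := by positivity
  have hκ0 : 0 < κ := by positivity
  have hκ1 : κ ≤ 1 / 10 := by
    rw [hκ]
    exact one_div_le_one_div_of_le (by norm_num) (by linarith)
  refine ⟨κ / 7, by positivity, by linarith, fun ρ hρ him => ?_⟩
  set t := ρ.im with ht
  have hell := one_le_ell t
  have hell0 : 0 < ell t := by linarith
  by_cases hre : ρ.re < 1 / 2
  · have : κ / 7 / ell t ≤ κ / 7 := div_le_self (by positivity) hell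
    linarith
  push Not at hre
  have hre1 : ρ.re < 1 := by
    by_contra hcon
    exact Z1_ne_zero (not_lt.1 hcon) hρ
  set σ : ℝ := 1 + κ / ell t with hσ
  have hκell : 0 < κ / ell t := by positivity
  have hκell1 : κ / ell t ≤ 1 / 10 := (div_le_self hκ0.le hell).trans hκ1
  have hσ1 : 1 < σ := by linarith
  have hσ2 : σ ≤ 2 := by linarith
  have h341 := three_four_one hσ1 t
  rw [LSeries_eq_DD (by simpa using hσ1), LSeries_eq_DD (by simpa using hσ1),
    LSeries_eq_DD (by simpa using hσ1), sub_re, sub_re, sub_re] at h341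
  have d0 := (hD 0 σ hσ1 hσ2).1
  have d2 := (hD (2 * t) σ hσ1 hσ2).1
  have hball : ρ ∈ closedBall (⟨2, t⟩ : ℂ) (3 / 2) := by
    rw [mem_closedBall, dist_eq_norm]
    have e : ρ - ⟨2, t⟩ = ((ρ.re - 2 : ℝ) : ℂ) := by
      apply Complex.ext <;> simp [ht]
    rw [e, Complex.norm_real, Real.norm_eq_abs, abs_le]
    constructor <;> linarith
  have d1 := (hD t σ hσ1 hσ2).2 ρ hball hρ
  change _ ≤ (DD _).re at d0
  change _ ≤ (DD _).re at d1
  change _ ≤ (DD _).re at d2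
  have e1 : (1 / ((⟨σ, t⟩ : ℂ) - ρ)).re = 1 / (σ - ρ.re) := by
    have e : (⟨σ, t⟩ : ℂ) - ρ = ((σ - ρ.re : ℝ) : ℂ) := by
      apply Complex.ext <;> simp [ht]
    rw [e, ← Complex.ofReal_one, ← Complex.ofReal_div, Complex.ofReal_re]
  rw [e1] at d1
  have e0 : (1 / ((⟨σ, 0⟩ : ℂ) - 1)).re = 1 / (σ - 1) := by
    have e : (⟨σ, 0⟩ : ℂ) - 1 = ((σ - 1 : ℝ) : ℂ) := by
      apply Complex.ext <;> simp
    rw [e, ← Complex.ofReal_one, ← Complex.ofReal_div, Complex.ofReal_re]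
  have et : ∀ v : ℝ, 1 ≤ |v| → (1 / ((⟨σ, v⟩ : ℂ) - 1)).re ≤ 1 := by
    intro v hv
    rw [one_div, Complex.inv_re, Complex.normSq_apply]
    simp only [sub_re, one_re, sub_im, one_im, sub_zero]
    have hv2 : 1 ≤ v * v := by
      have := mul_self_le_mul_self zero_le_one hv
      rw [abs_mul_abs_self] at this
      linarith
    have hpos : 0 < (σ - 1) * (σ - 1) + v * v := by nlinarith
    rw [div_le_one hpos]
    nlinarith
  have h2t : 1 ≤ |2 * t| := by
    rw [abs_mul]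
    norm_num
    linarith
  have et1 := et t him
  have et2 := et (2 * t) h2t
  have l0 : ell 0 ≤ ell t := ell_mono (by simp)
  have l2 : ell (2 * t) ≤ 2 * ell t := by
    unfold ell
    have habs : |2 * t| = 2 * |t| := by rw [abs_mul]; norm_num
    rw [habs]
    have ht0 := abs_nonneg t
    have h2 : Real.log (2 * |t| + 3) ≤ Real.log ((|t| + 3) ^ 2) :=
      Real.log_le_log (by positivity) (by nlinarith)
    rw [Real.log_pow] at h2
    exact_mod_cast h2
  rw [e0] at h341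
  have hsb : 0 < σ - ρ.re := by linarith
  have hmain : 4 / (σ - ρ.re) ≤ 3 / (σ - 1) + K' * ell t := by
    have m0 : -(DD ⟨σ, 0⟩).re ≤ K * ell t := by nlinarith
    have m2 : -(DD ⟨σ, 2 * t⟩).re ≤ 2 * K * ell t := by nlinarith
    have a1 : 4 / (σ - ρ.re) = 4 * (1 / (σ - ρ.re)) := by ring
    have a2 : 3 / (σ - 1) = 3 * (1 / (σ - 1)) := by ring
    rw [a1, a2, hK']
    nlinarith
  have hs1 : σ - 1 = κ / ell t := by rw [hσ]; ring
  have h3 : 3 / (σ - 1) + K' * ell t = 7 / 2 * (ell t / κ) := by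
    rw [hs1, hκ]
    field_simp
    ring
  rw [h3, div_le_iff₀ hsb] at hmain
  have h4 : 8 / 7 * (κ / ell t) ≤ σ - ρ.re := by
    have h5 : 0 < ell t / κ := by positivity
    have h6 : 8 / 7 * (κ / ell t) * (7 / 2 * (ell t / κ)) = 4 := by
      field_simp
      norm_num
    by_contra hcon
    push Not at hcon
    have : (σ - ρ.re) * (7 / 2 * (ell t / κ)) < 8 / 7 * (κ / ell t) * (7 / 2 * (ell t / κ)) :=
      mul_lt_mul_of_pos_right hcon (by positivity)
    rw [h6] at this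
    linarith
  have h7 : κ / 7 / ell t = 1 / 7 * (κ / ell t) := by ring
  rw [h7]
  rw [hσ] at h4
  linarith

lemma zf_low : ∃ c : ℝ, 0 < c ∧ c ≤ 1 / 2 ∧ ∀ ρ : ℂ, Z1 ρ = 0 → |ρ.im| ≤ 1 → ρ.re ≤ 1 - c := by
  set S : Set ℂ := (Set.Icc (1 / 2 : ℝ) 1 ×ℂ Set.Icc (-1 : ℝ) 1) ∩ {s | Z1 s = 0} with hS
  have hSc : IsCompact S :=
    (isCompact_Icc.reProdIm isCompact_Icc).inter_right (isClosed_eq Z1_diff.continuous continuous_const)
  rcases S.eq_empty_or_nonempty with he | hne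
  · refine ⟨1 / 2, by norm_num, le_rfl, fun ρ hρ him => ?_⟩
    by_contra hcon
    push Not at hcon
    have hre1 : ρ.re < 1 := by
      by_contra hcon
      exact Z1_ne_zero (not_lt.1 hcon) hρ
    have : ρ ∈ S := by
      rw [hS]
      refine ⟨?_, hρ⟩
      rw [Complex.mem_reProdIm]
      exact ⟨⟨by linarith, hre1.le⟩, abs_le.1 him⟩
    rw [he] at this
    exact this
  · obtain ⟨m, hm, hmax⟩ := hSc.exists_isMaxOn hne Complex.continuous_re.continuousOn
    have hm1 : m.re < 1 := by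
      by_contra hcon
      exact Z1_ne_zero (not_lt.1 hcon) hm.2
    refine ⟨min (1 / 2) (1 - m.re), lt_min (by norm_num) (by linarith), min_le_left _ _,
      fun ρ hρ him => ?_⟩
    by_cases hre : ρ.re < 1 / 2
    · have := min_le_left (1 / 2 : ℝ) (1 - m.re)
      linarith
    push Not at hre
    have hre1 : ρ.re < 1 := by
      by_contra hcon
      exact Z1_ne_zero (not_lt.1 hcon) hρ
    have hmem : ρ ∈ S := by
      rw [hS]
      refine ⟨?_, hρ⟩
      rw [Complex.mem_reProdIm]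
      exact ⟨⟨by linarith, hre1.le⟩, abs_le.1 him⟩
    have h1 := hmax hmem
    simp only [Set.mem_ofPred_eq] at h1
    have := min_le_right (1 / 2 : ℝ) (1 - m.re)
    linarith

/-- the classical zero free region -/
theorem zf : ∃ c : ℝ, 0 < c ∧ c ≤ 1 / 2 ∧ ∀ ρ : ℂ, Z1 ρ = 0 → ρ.re ≤ 1 - c / ell ρ.im := by
  obtain ⟨c1, h1, h1', hh⟩ := zf_high
  obtain ⟨c2, h2, h2', hl⟩ := zf_low
  refine ⟨min c1 c2, lt_min h1 h2, (min_le_left _ _).trans h1', fun ρ hρ => ?_⟩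
  have hell := one_le_ell ρ.im
  have hell0 : 0 < ell ρ.im := by linarith
  rcases le_total 1 |ρ.im| with h | h
  · have := hh ρ hρ h
    have h3 : min c1 c2 / ell ρ.im ≤ c1 / ell ρ.im := by
      apply div_le_div_of_nonneg_right (min_le_left _ _) hell0.le
    linarith
  · have := hl ρ hρ h
    have h3 : min c1 c2 / ell ρ.im ≤ min c1 c2 := div_le_self (le_min h1.le h2.le) hell
    have h4 := min_le_right c1 c2
    linarith

/-- the logarithmic derivative of `(s-1) ζ(s)` in the classical region -/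
theorem zf_bound : ∃ c C : ℝ, 0 < c ∧ c ≤ 1 / 8 ∧ 0 < C ∧ ∀ z : ℂ, 1 - c / ell z.im ≤ z.re →
    z.re ≤ 2 → Z1 z ≠ 0 ∧ ‖DD z‖ ≤ C * (ell z.im) ^ 2 := by
  obtain ⟨c, hc, hc1, hzf⟩ := zf
  obtain ⟨K0, hK0, hball⟩ := Z1_ball
  have hl1 : 0 < Real.log (7 / 4 / (3 / 2)) := Real.log_pos (by norm_num)
  have hl2 : 0 < Real.log (3 / 2 / (7 / 4 - 3 / 2)) := Real.log_pos (by norm_num)
  set K1 : ℝ := 2 * (K0 + K0 / Real.log (7 / 4 / (3 / 2)) * Real.log (3 / 2 / (7 / 4 - 3 / 2)) + 1) *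
    (11 / 8) / (3 / 2 - 11 / 8) / (11 / 8 - 9 / 8) with hK1
  have hK1pos : 0 < K1 := by
    rw [hK1]
    have : 0 < K0 / Real.log (7 / 4 / (3 / 2)) * Real.log (3 / 2 / (7 / 4 - 3 / 2)) := by positivity
    have h2 : (0 : ℝ) < 3 / 2 - 11 / 8 := by norm_num
    have h3 : (0 : ℝ) < 11 / 8 - 9 / 8 := by norm_num
    positivity
  set K2 : ℝ := K0 / Real.log (7 / 4 / (3 / 2)) * (4 / c) with hK2
  have hK2pos : 0 < K2 := by positivity
  refine ⟨c / 4, K1 + K2, by positivity, by linarith, by positivity, fun z hz hz2 => ?_⟩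
  set t := z.im with ht
  have hell := one_le_ell t
  have hell0 : 0 < ell t := by linarith
  obtain ⟨M, hM1, hMb, hl0, hlK⟩ := hball t
  have hcn : Z1 ⟨2, t⟩ ≠ 0 := Z1_ne_zero (by norm_num)
  have hcb : ‖Z1 ⟨2, t⟩‖ ≤ M := hMb _ (mem_closedBall_self (by norm_num))
  have hcell : c / 4 / ell t ≤ 1 / 8 := by
    refine (div_le_self (by positivity) hell).trans (by linarith)
  have hzb : z ∈ closedBall (⟨2, t⟩ : ℂ) (9 / 8) := by
    rw [mem_closedBall, dist_eq_norm]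
    have e : z - ⟨2, t⟩ = ((z.re - 2 : ℝ) : ℂ) := by
      apply Complex.ext <;> simp [ht]
    rw [e, Complex.norm_real, Real.norm_eq_abs, abs_le]
    constructor <;> linarith
  have hdist : ∀ ρ ∈ closedBall (⟨2, t⟩ : ℂ) (3 / 2), Z1 ρ = 0 → c / (4 * ell t) ≤ ‖z - ρ‖ := by
    intro ρ hρ h0
    have h1 := hzf ρ h0
    rw [mem_closedBall, dist_eq_norm] at hρ
    have h2 := (Complex.abs_im_le_norm (ρ - ⟨2, t⟩)).trans hρ
    simp only [sub_im] at h2
    have h3 : ell ρ.im ≤ 2 * ell t := ell_near (by linarith)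
    have h4 : 0 < ell ρ.im := by linarith [one_le_ell ρ.im]
    have h5 : c / (2 * ell t) ≤ c / ell ρ.im := div_le_div_of_nonneg_left hc.le h4 h3
    refine le_trans ?_ ((le_abs_self _).trans (Complex.abs_re_le_norm (z - ρ)))
    rw [sub_re]
    have h6 : c / 4 / ell t = c / (4 * ell t) := by rw [div_div]
    have h7 : c / (2 * ell t) = 2 * (c / (4 * ell t)) := by
      field_simp
      norm_num
    rw [h6] at hz
    linarith
  obtain ⟨h1, h2⟩ := landau (f := Z1) (c := ⟨2, t⟩) (r := 3 / 2) (r1 := 11 / 8)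
    (r2 := 9 / 8) (R := 7 / 4) (M := M) (by norm_num) (by norm_num) (by norm_num) (by norm_num)
    (by norm_num) hM1 hcb (fun z _ => Z1_diff.analyticAt z) hcn hMb z hzb (c / (4 * ell t))
    (by positivity) hdist
  refine ⟨h1, h2.trans ?_⟩
  have hbd : 2 * (Real.log (M / ‖Z1 ⟨2, t⟩‖) + Real.log (M / ‖Z1 ⟨2, t⟩‖) /
      Real.log (7 / 4 / (3 / 2)) * Real.log (3 / 2 / (7 / 4 - 3 / 2)) + 1) * (11 / 8) /
      (3 / 2 - 11 / 8) / (11 / 8 - 9 / 8) ≤ K1 * ell t := by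
    have e1 : Real.log (M / ‖Z1 ⟨2, t⟩‖) + Real.log (M / ‖Z1 ⟨2, t⟩‖) /
      Real.log (7 / 4 / (3 / 2)) * Real.log (3 / 2 / (7 / 4 - 3 / 2)) + 1 ≤
      (K0 + K0 / Real.log (7 / 4 / (3 / 2)) * Real.log (3 / 2 / (7 / 4 - 3 / 2)) + 1) * ell t := by
      have e2 : Real.log (M / ‖Z1 ⟨2, t⟩‖) /
        Real.log (7 / 4 / (3 / 2)) * Real.log (3 / 2 / (7 / 4 - 3 / 2)) ≤
        (K0 * ell t) / Real.log (7 / 4 / (3 / 2)) * Real.log (3 / 2 / (7 / 4 - 3 / 2)) := by
        gcongr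
      have e3 : (K0 * ell t) / Real.log (7 / 4 / (3 / 2)) * Real.log (3 / 2 / (7 / 4 - 3 / 2)) =
        K0 / Real.log (7 / 4 / (3 / 2)) * Real.log (3 / 2 / (7 / 4 - 3 / 2)) * ell t := by ring
      rw [e3] at e2
      nlinarith
    have h3 : (0 : ℝ) < 3 / 2 - 11 / 8 := by norm_num
    have h4 : (0 : ℝ) < 11 / 8 - 9 / 8 := by norm_num
    calc _ ≤ 2 * ((K0 + K0 / Real.log (7 / 4 / (3 / 2)) * Real.log (3 / 2 / (7 / 4 - 3 / 2)) + 1) *
        ell t) * (11 / 8) / (3 / 2 - 11 / 8) / (11 / 8 - 9 / 8) := by gcongr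
      _ = K1 * ell t := by rw [hK1]; ring
  have hbd2 : Real.log (M / ‖Z1 ⟨2, t⟩‖) / Real.log (7 / 4 / (3 / 2)) / (c / (4 * ell t)) ≤
      K2 * (ell t) ^ 2 := by
    calc _ ≤ (K0 * ell t) / Real.log (7 / 4 / (3 / 2)) / (c / (4 * ell t)) := by gcongr
      _ = K2 * (ell t) ^ 2 := by rw [hK2]; field_simp
  have h8 : K1 * ell t ≤ K1 * (ell t) ^ 2 := by
    apply mul_le_mul_of_nonneg_left _ hK1pos.le
    nlinarith
  linarith

end Pool.Agent.W66
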